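import Mathlib
import Pool.Agent.H129Z.EngMain

set_option autoImplicit false

namespace Pool.Agent.Results.MP_1664c7_al.CharThree

open Pool.Agent.H129Z.Eng

universe u

theorem result (F : Type u) [Field F] [CharP F 3] :
    ∃ (A : Type u) (_ : NonUnitalNonAssocRing A) (_ : Module F A) (_ : IsScalarTower F A A)
      (_ : SMulCommClass F A A), (∀ x : A, x * x = 0) ∧ (∀ x y : A, x * y * y * y = 0) ∧
      ∃ a b : A, ¬ IsNilp (NonUnitalAlgebra.adjoin F {a, b} : Set A) :=
  main F

end Pool.Agent.Results.MP_1664c7_al.CharThree
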